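import Pool.Agent.Helper75.OE.GoalsB

set_option autoImplicit false

namespace Pool.Agent.Helper91.OE

open Pool.Agent.Helper73.OE Pool.Agent.Helper73.OE.Sys Finset Pool.Agent.Helper75.OE

/-- Packet OE-LAB. -/
theorem lab (hAT : B_AT) (hRINV : B_RINV) (hPINV : B_PINV) : B_LAB := by
  intro H S L _ _ X P u l O q z r c r' hSym hMA hFr hcr hr' hThr hex
  obtain ⟨e, O', f', hrec, hon⟩ := hex
  obtain ⟨hI1, hI2, -⟩ := hRINV H S L X P u l O q hSym hMA hFr
  obtain ⟨-, hSym', hMA', -, -, hback⟩ := hI1 e O' f' hrec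
  obtain ⟨hT, hT1⟩ := hThr e O' f' hrec
  obtain ⟨at1, at2, at3, -, -, -⟩ := hAT H S L X O' f' (X.nb e.1 e.2) (X.bar e.2)
    (X.tau (f' e.1 e.2))
  obtain ⟨p', y', hat⟩ := (at1 z).1 hon
  obtain ⟨-, hw, hT3⟩ := hT
  obtain ⟨-, -, hT13⟩ := hT1
  obtain ⟨hs', hdir⟩ := hT3 p' y' hat
  -- the predecessor
  obtain ⟨z0, p0, y0, hat0, ho0, hz0, hp0, hy0⟩ : ∃ z1 p1 y1,
      At X O' f' (X.nb e.1 e.2) (X.bar e.2) (X.tau (f' e.1 e.2)) z1 p1 y1 ∧
        O' z1 ((f' z1).symm y1) ∧ z = X.nb z1 ((f' z1).symm y1) ∧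
          p' = X.bar ((f' z1).symm y1) ∧ y' = X.tau (f' z1 p1) := by
    rcases at3 z p' y' hat with ⟨h, -, -⟩ | h
    · exfalso
      rw [← h, X.dist_self] at hw
      exact Nat.not_lt_zero _ hw
    · exact h
  have hop' : O' z p' := by
    have := (hSym' z0 ((f' z0).symm y0)).1 ho0
    rwa [← hz0, ← hp0] at this
  have hzr' : O' z r ∧ O' z c := by
    rcases hdir with ⟨h1, h2⟩ | ⟨h1, h2⟩
    · rw [h1] at hop'; rw [h2] at hs'
      exact ⟨hop', hs'⟩
    · rw [h1] at hop'; rw [h2] at hs'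
      exact ⟨hs', hop'⟩
  -- the edges at z are not updated
  have hnot : ∀ s, (z, s) ∉ l ∧ X.rev (z, s) ∉ l := by
    intro s
    refine ⟨fun h => ?_, fun h => ?_⟩
    · obtain ⟨O2, f2, h2⟩ := hI2 _ h
      have h3 := (hThr _ _ _ h2).1.1
      simp only [X.dist_self] at h3
      exact Nat.not_lt_zero _ h3
    · obtain ⟨O2, f2, h2⟩ := hI2 _ h
      have h3 := (hThr _ _ _ h2).1.2.1
      have h4 : X.nb (X.rev (z, s)).1 (X.rev (z, s)).2 = z := X.nb_bar z s
      rw [h4, X.dist_self] at h3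
      exact Nat.not_lt_zero _ h3
  have hO : ∀ s, O' z s → O z s := by
    intro s hs
    rcases hback z s hs with h | h | h
    · exact h
    · exact absurd h (hnot s).1
    · exact absurd h (hnot s).2
  have hOr := hO r hzr'.1
  have hOc := hO c hzr'.2
  refine ⟨hOc, ?_⟩
  -- matched edges
  have mq : q (X.nb z r) (X.bar r) = X.tau (q z r) := hMA z r trivial trivial hOr
  have mf : f' (X.nb z r) (X.bar r) = X.tau (f' z r) := hMA' z r trivial trivial hzr'.1
  have C : q z r = X.tau (q (X.nb z r) (X.bar r)) := by rw [mq, X.tau_tau]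
  have A : f' z r = X.tau (f' (X.nb z r) (X.bar r)) := by rw [mf, X.tau_tau]
  have B : f' z c = X.tau (f' (X.nb z r) r') := by
    rcases hdir with ⟨h1, h2⟩ | ⟨h1, h2⟩
    · have e1 : (f' z0).symm y0 = X.bar r := by
        rw [← h1, hp0, X.bar_bar]
      have e2 : z0 = X.nb z r := by
        have h3 : X.nb z p' = z0 := by
          rw [hz0, hp0]
          exact X.nb_bar _ _
        rw [← h3, h1]
      obtain ⟨-, h4⟩ := hT13 p0 y0 (by rw [← e2]; exact hat0)
      rw [← e2] at h4 ⊢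
      have e3 : p0 = r' := by
        rcases h4 with ⟨h5, -⟩ | ⟨-, h5⟩
        · exact h5
        · exfalso
          apply hr'
          rw [← h5, e1]
      rw [← e3, ← hy0, ← h2, Equiv.apply_symm_apply]
    · have h3 := at2 z p' y' hat hs'
      rw [h2, h1] at h3
      obtain ⟨-, h4⟩ := hT13 _ _ h3
      have e3 : (f' (X.nb z r)).symm (X.tau (f' z c)) = r' := by
        rcases h4 with ⟨h5, -⟩ | ⟨-, h5⟩
        · exact absurd h5.symm hr'
        · exact h5
      rw [← e3, Equiv.apply_symm_apply, X.tau_tau]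
  have P1 := hPINV H S L X P u l O q z r c hSym hMA hFr
    (fun e' O'' f'' h => (hThr e' O'' f'' h).1) e O' f' hrec
  have P2 := hPINV H S L X P u l O q (X.nb z r) r' (X.bar r) hSym hMA hFr
    (fun e' O'' f'' h => (hThr e' O'' f'' h).2) e O' f' hrec
  rcases P1 with ⟨a1, a2⟩ | ⟨a1, a2⟩
  · rcases P2 with ⟨b1, b2⟩ | ⟨b1, b2⟩
    · rw [← a2, ← b1]; exact B
    · exfalso
      apply hcr
      apply (q z).injective
      rw [← a2, B, b1, C]
  · rcases P2 with ⟨b1, b2⟩ | ⟨b1, b2⟩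
    · exfalso
      apply hcr
      apply (q z).injective
      rw [← a1, A, b2, C]
    · rw [← a1, ← b2]; exact A

end Pool.Agent.Helper91.OE
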