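import Pool.Agent.Helper78.OE.GoalsC2

set_option autoImplicit false

open MeasureTheory Pool.Agent.Helper73.OE
open scoped ENNReal

namespace Pool.Agent.Helper91.OE

open Pool.Agent.Helper78.OE

variable {H S L : Type} [Group H] (X : Sys H S L) [Fintype S] [Fintype L]

/-- The value of the integrand on the event `w.1 v = σ`. -/
theorem step_eq {ε : ℝ} (Ψ : H → S → L → St H S L → ℝ≥0∞) (v : H) (p : S) (y : L)
    (G : St H S L → ℝ≥0∞) (σ : S ≃ L) (w : St H S L) :
    G w * (ind (Om X ε w v ((w.1 v).symm y)) *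
      Ψ (X.nb v ((w.1 v).symm y)) (X.bar ((w.1 v).symm y)) (X.tau (w.1 v p)) w) *
        ind (w.1 v = σ) =
      ((G w * ind (w.1 v = σ)) * ind (Om X ε w v (σ.symm y))) *
        Ψ (X.nb v (σ.symm y)) (X.bar (σ.symm y)) (X.tau (σ p)) w := by
  by_cases h : w.1 v = σ
  · rw [ind_true h, h]; ring
  · rw [ind_false h]; ring

theorem step_meas {ε : ℝ} {μ : Measure (St H S L)} (C : Ctx X ε μ)
    (Ψ : H → S → L → St H S L → ℝ≥0∞) (hΨ : ∀ v p y, Measurable (Ψ v p y)) (v : H) (p : S)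
    (y : L) (G : St H S L → ℝ≥0∞) (hG : Measurable G) :
    Measurable fun w : St H S L => G w * (ind (Om X ε w v ((w.1 v).symm y)) *
      Ψ (X.nb v ((w.1 v).symm y)) (X.bar ((w.1 v).symm y)) (X.tau (w.1 v p)) w) := by
  classical
  have h1 : (fun w : St H S L => G w * (ind (Om X ε w v ((w.1 v).symm y)) *
      Ψ (X.nb v ((w.1 v).symm y)) (X.bar ((w.1 v).symm y)) (X.tau (w.1 v p)) w)) =
      fun w => ∑ σ : S ≃ L, ((G w * ind (w.1 v = σ)) * ind (Om X ε w v (σ.symm y))) *
        Ψ (X.nb v (σ.symm y)) (X.bar (σ.symm y)) (X.tau (σ p)) w := by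
    funext w
    simp only [← step_eq X Ψ v p y G _ w]
    rw [← Finset.mul_sum, Finset.sum_eq_single (w.1 v), ind_true rfl, mul_one]
    · intro b _ hb
      exact ind_false (Ne.symm hb)
    · intro h
      exact absurd (Finset.mem_univ _) h
  rw [h1]
  refine Finset.measurable_sum _ fun σ _ => ?_
  exact ((hG.mul (meas_eq v σ)).mul (meas_om X C.meas ε v (σ.symm y))).mul (hΨ _ _ _)

theorem step_test {ε : ℝ} {μ : Measure (St H S L)} (C : Ctx X ε μ) {v : H} {p : S} {y : L}
    {G : St H S L → ℝ≥0∞} (hG : Test X v p y G) (σ : S ≃ L) (hσ : σ p ≠ y) :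
    Test X (X.nb v (σ.symm y)) (X.bar (σ.symm y)) (X.tau (σ p))
      (fun w => (G w * ind (w.1 v = σ)) * ind (Om X ε w v (σ.symm y))) ∧
    ∫⁻ w, (G w * ind (w.1 v = σ)) * ind (Om X ε w v (σ.symm y)) ∂μ =
      sg ε * ∫⁻ w, G w * ind (w.1 v = σ) ∂μ := by
  have hK := Test.mul_eq X hG σ
  have hd : X.DepOn (X.Sd v (σ.symm y)) (fun w => G w * ind (w.1 v = σ)) :=
    DepOn.mono X hK.dep (X.Past_subset (symm_ne hσ))
  refine ⟨?_, ?_⟩
  · refine test_next X C.meas ε hK.meas hd hK.le_one ?_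
    intro w hw
    show G w * ind (w.1 v = σ) = 0
    by_cases h : w.1 v = σ
    · exfalso
      rw [h, σ.apply_symm_apply] at hw
      exact hσ hw.symm
    · rw [ind_false h, mul_zero]
  · exact C.strip v (σ.symm y) _ hK.meas hd

theorem step_zero {v : H} {p : S} {y : L} {G : St H S L → ℝ≥0∞} (hG : Test X v p y G)
    (σ : S ≃ L) (hσ : σ p = y) (w : St H S L) : G w * ind (w.1 v = σ) = 0 := by
  by_cases h : w.1 v = σ
  · rw [hG.van w (by rw [h]; exact hσ), zero_mul]
  · rw [ind_false h, mul_zero]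

/-- Packet OE-SHIFT. -/
theorem shift {ε : ℝ} {μ : Measure (St H S L)} (C : Ctx X ε μ) : SHIFT X ε μ := by
  classical
  intro Ψ c hΨ
  refine ⟨?_, ?_⟩
  · intro hyp v p y G hG
    refine le_of_split μ v (step_meas X C Ψ hΨ v p y G hG.meas) hG.meas (sg ε * c) ?_
    intro σ
    simp only [step_eq X Ψ v p y G σ]
    by_cases hσ : σ p = y
    · simp only [step_zero X hG σ hσ, zero_mul, lintegral_zero]
      exact zero_le
    · obtain ⟨h1, h2⟩ := step_test X C hG σ hσ
      refine (hyp _ _ _ _ h1).trans (le_of_eq ?_)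
      rw [h2]
      ring
  · intro hyp v p y G hG
    refine eq_of_split μ v (step_meas X C Ψ hΨ v p y G hG.meas) hG.meas (sg ε * c) ?_
    intro σ
    simp only [step_eq X Ψ v p y G σ]
    by_cases hσ : σ p = y
    · simp only [step_zero X hG σ hσ, zero_mul, lintegral_zero, mul_zero]
    · obtain ⟨h1, h2⟩ := step_test X C hG σ hσ
      rw [hyp _ _ _ _ h1, h2]
      ring

end Pool.Agent.Helper91.OE
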